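import Mathlib

/-!
Markov chains on a countable space driven by independent noise, the maximal inequality for
nonnegative supermartingale functions, and divergence of sums of independent waiting times.
-/

open MeasureTheory ProbabilityTheory Filter
open scoped ENNReal

namespace Pool.Agent.Q209.RN

section driven

variable {X S : Type*} [MeasurableSpace X] {ν : Measure X} [IsProbabilityMeasure ν]

/-- the chain driven by the noise `ω` -/
def chain (step : S → X → S) (z : S) (ω : ℕ → X) : ℕ → S
  | 0 => z
  | k + 1 => step (chain step z ω k) (ω k)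

omit [MeasurableSpace X] in
theorem chain_congr (step : S → X → S) (z : S) {ω ω' : ℕ → X} (k : ℕ)
    (h : ∀ i < k, ω i = ω' i) : chain step z ω k = chain step z ω' k := by
  induction k with
  | zero => rfl
  | succ k ih =>
    simp only [chain]
    rw [ih (fun i hi => h i (by omega)), h k (by omega)]

variable [MeasurableSpace S] [DiscreteMeasurableSpace S] [Countable S]

omit [DiscreteMeasurableSpace S] in
theorem step_measurable [MeasurableSingletonClass S] {step : S → X → S}
    (hs : ∀ s, Measurable (step s)) :
    Measurable (fun p : S × X => step p.1 p.2) :=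
  measurable_from_prod_countable_right hs

theorem chain_measurable {step : S → X → S} (hs : ∀ s, Measurable (step s)) (z : S) (k : ℕ) :
    Measurable (fun ω : ℕ → X => chain step z ω k) := by
  induction k with
  | zero => exact measurable_const
  | succ k ih =>
    exact (step_measurable hs).comp (ih.prodMk (measurable_pi_apply k))

theorem chain_indep {step : S → X → S} (hs : ∀ s, Measurable (step s)) (z : S) (k : ℕ) :
    IndepFun (fun ω : ℕ → X => chain step z ω k) (fun ω => ω k)
      (Measure.infinitePi fun _ : ℕ => ν) := by
  obtain ⟨x0⟩ : Nonempty X := by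
    by_contra hcon
    rw [not_nonempty_iff] at hcon
    have h1 : ν Set.univ = 1 := measure_univ
    rw [Set.univ_eq_empty_iff.mpr hcon, measure_empty] at h1
    exact zero_ne_one h1
  have h1 : iIndepFun (fun (i : ℕ) (ω : ℕ → X) => ω i) (Measure.infinitePi fun _ : ℕ => ν) :=
    iIndepFun_infinitePi (X := fun _ x => x) (fun _ => measurable_id)
  have h2 := h1.indepFun_finset (Finset.range k) {k} (by simp)
    (fun i => measurable_pi_apply i)
  let ext : ((Finset.range k) → X) → (ℕ → X) := fun r i =>
    if h : i ∈ Finset.range k then r ⟨i, h⟩ else x0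
  have hext : Measurable ext := by
    refine measurable_pi_lambda _ fun i => ?_
    by_cases h : i ∈ Finset.range k
    · simp only [ext, dif_pos h]
      exact measurable_pi_apply _
    · simp only [ext, dif_neg h]
      exact measurable_const
  have h3 := h2.comp (φ := fun r => chain step z (ext r) k)
    (ψ := fun r : ({k} : Finset ℕ) → X => r ⟨k, Finset.mem_singleton_self k⟩)
    ((chain_measurable hs z k).comp hext)
    (measurable_pi_apply (X := fun _ : ({k} : Finset ℕ) => X)
      (⟨k, Finset.mem_singleton_self k⟩ : ({k} : Finset ℕ)))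
  have e1 : (fun ω : ℕ → X => chain step z ω k) =
      (fun r => chain step z (ext r) k) ∘ (fun (ω : ℕ → X) (i : Finset.range k) => ω i) := by
    ext ω
    simp only [Function.comp]
    apply chain_congr
    intro i hi
    simp only [ext]
    rw [dif_pos (Finset.mem_range.mpr hi)]
  rw [e1]
  exact h3

/-- supermartingale property, in integrated form -/
theorem lintegral_chain_le {step : S → X → S} (hs : ∀ s, Measurable (step s)) (z : S)
    (V : S → ℝ≥0∞) (hV : ∀ s, ∫⁻ x, V (step s x) ∂ν ≤ V s) (k : ℕ) :
    ∫⁻ ω, V (chain step z ω k) ∂(Measure.infinitePi fun _ : ℕ => ν) ≤ V z := by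
  induction k with
  | zero => simp [chain]
  | succ k ih =>
    set μ := Measure.infinitePi fun _ : ℕ => ν with hμ
    have hVm : Measurable V := Measurable.of_discrete
    have h1 := (indepFun_iff_map_prod_eq_prod_map_map
      (chain_measurable hs z k).aemeasurable (measurable_pi_apply k).aemeasurable).mp
      (chain_indep (ν := ν) hs z k)
    have hmap : μ.map (fun ω : ℕ → X => ω k) = ν := by
      rw [hμ]
      exact Measure.infinitePi_map_eval (fun _ : ℕ => ν) k
    have hg : Measurable fun p : S × X => V (step p.1 p.2) := hVm.comp (step_measurable hs)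
    have e1 : ∫⁻ ω, V (chain step z ω (k + 1)) ∂μ =
        ∫⁻ p, V (step p.1 p.2) ∂(μ.map fun ω => (chain step z ω k, ω k)) := by
      rw [lintegral_map hg ((chain_measurable hs z k).prodMk (measurable_pi_apply k))]
      rfl
    rw [e1, h1, hmap, lintegral_prod _ hg.aemeasurable]
    have : IsProbabilityMeasure (μ.map fun ω => chain step z ω k) :=
      Measure.isProbabilityMeasure_map (chain_measurable hs z k).aemeasurable
    calc ∫⁻ s, ∫⁻ x, V (step s x) ∂ν ∂(μ.map fun ω => chain step z ω k)
        ≤ ∫⁻ s, V s ∂(μ.map fun ω => chain step z ω k) := lintegral_mono hV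
      _ = ∫⁻ ω, V (chain step z ω k) ∂μ := lintegral_map hVm (chain_measurable hs z k)
      _ ≤ V z := ih

/-- Maximal inequality. -/
theorem maximal {step : S → X → S} (hs : ∀ s, Measurable (step s)) (z : S)
    (V : S → ℝ≥0∞) (hV : ∀ s, ∫⁻ x, V (step s x) ∂ν ≤ V s) (M : ℝ≥0∞) (hM0 : M ≠ 0)
    (hM : M ≠ ∞) :
    (Measure.infinitePi fun _ : ℕ => ν) {ω | ∃ k, M ≤ V (chain step z ω k)} ≤ V z / M := by
  classical
  set μ := Measure.infinitePi fun _ : ℕ => ν with hμ
  let step' : S → X → S := fun s x => if M ≤ V s then s else step s x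
  have hs' : ∀ s, Measurable (step' s) := by
    intro s
    by_cases h : M ≤ V s
    · simp only [step', if_pos h]; exact measurable_const
    · simp only [step', if_neg h]; exact hs s
  have hV' : ∀ s, ∫⁻ x, V (step' s x) ∂ν ≤ V s := by
    intro s
    by_cases h : M ≤ V s
    · simp only [step', if_pos h, lintegral_const, measure_univ, mul_one, le_refl]
    · simp only [step', if_neg h]; exact hV s
  -- before hitting, both chains agree; after hitting the second one is frozen
  have hagree : ∀ (ω : ℕ → X) (k : ℕ), (∀ j < k, ¬ M ≤ V (chain step z ω j)) →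
      chain step' z ω k = chain step z ω k := by
    intro ω k
    induction k with
    | zero => intro _; rfl
    | succ k ih =>
      intro h
      have h1 := ih (fun j hj => h j (by omega))
      simp only [chain]
      rw [h1]
      simp only [step', if_neg (h k (by omega))]
  have hfrozen : ∀ (ω : ℕ → X) (k : ℕ), M ≤ V (chain step' z ω k) →
      ∀ m, k ≤ m → M ≤ V (chain step' z ω m) := by
    intro ω k hk m hm
    induction m, hm using Nat.le_induction with
    | base => exact hk
    | succ m _ ih =>
      simp only [chain, step', if_pos ih]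
      exact ih
  have hsub : {ω | ∃ k, M ≤ V (chain step z ω k)} ⊆
      ⋃ k, {ω | M ≤ V (chain step' z ω k)} := by
    rintro ω ⟨k, hk⟩
    classical
    have hex : ∃ k, M ≤ V (chain step z ω k) := ⟨k, hk⟩
    rw [Set.mem_iUnion]
    refine ⟨Nat.find hex, ?_⟩
    have h1 := hagree ω (Nat.find hex) (fun j hj => Nat.find_min hex hj)
    show M ≤ V (chain step' z ω (Nat.find hex))
    rw [h1]
    exact Nat.find_spec hex
  refine (measure_mono hsub).trans ?_
  have hmono : Monotone fun k => {ω : ℕ → X | M ≤ V (chain step' z ω k)} := by
    intro k m hkm ω hω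
    exact hfrozen ω k hω m hkm
  rw [hmono.measure_iUnion]
  apply iSup_le
  intro k
  have h1 := meas_ge_le_lintegral_div (μ := μ) (f := fun ω => V (chain step' z ω k))
    ((Measurable.of_discrete (f := V)).comp (chain_measurable hs' z k)).aemeasurable hM0 hM
  refine h1.trans ?_
  gcongr
  exact lintegral_chain_le hs' z V hV' k

/-- Almost surely the values of the supermartingale function along the chain are bounded. -/
theorem ae_bounded {step : S → X → S} (hs : ∀ s, Measurable (step s)) (z : S)
    (V : S → ℝ≥0∞) (hV : ∀ s, ∫⁻ x, V (step s x) ∂ν ≤ V s) (hz : V z ≠ ∞) :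
    ∀ᵐ ω ∂(Measure.infinitePi fun _ : ℕ => ν), ∃ M : ℕ, ∀ k, V (chain step z ω k) < M := by
  rw [ae_iff]
  have hle : ∀ M : ℕ, 0 < M → (Measure.infinitePi fun _ : ℕ => ν)
      {ω | ¬ ∃ M : ℕ, ∀ k, V (chain step z ω k) < M} ≤ V z / M := by
    intro M hM
    refine (measure_mono ?_).trans (maximal hs z V hV (M : ℝ≥0∞) (by exact_mod_cast hM.ne')
      (ENNReal.natCast_ne_top M))
    intro ω hω
    simp only [Set.mem_ofPred_eq, not_exists, not_forall, not_lt] at hω ⊢
    exact hω M
  have hlim : Tendsto (fun M : ℕ => V z / (M : ℝ≥0∞)) atTop (nhds 0) := by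
    have h1 := ENNReal.tendsto_inv_nat_nhds_zero
    have h2 := ENNReal.Tendsto.const_mul (a := V z) h1 (Or.inr hz)
    rw [mul_zero] at h2
    exact h2
  refine le_antisymm ?_ bot_le
  refine ge_of_tendsto hlim ?_
  filter_upwards [eventually_gt_atTop 0] with M hM
  exact hle M hM

end driven

end Pool.Agent.Q209.RN
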