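import Mathlib
import Pool.Agent.Q209.RN.Drive

/-!
Uniform and exponential noise; choosing from a weighted list; divergence of waiting times.
-/

open MeasureTheory ProbabilityTheory Filter
open scoped ENNReal

namespace Pool.Agent.Q209.RN

/-- uniform on `[0,1)` times exponential of mean one -/
noncomputable def noise : Measure (ℝ × ℝ) :=
  (volume.restrict (Set.Ico (0 : ℝ) 1)).prod (expMeasure 1)

instance : IsProbabilityMeasure (expMeasure 1) := isProbabilityMeasure_expMeasure one_pos

instance : IsProbabilityMeasure (volume.restrict (Set.Ico (0 : ℝ) 1)) :=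
  ⟨by simp⟩

instance : IsProbabilityMeasure noise := by unfold noise; infer_instance

theorem exp_Iic (x : ℝ) (hx : 0 ≤ x) :
    expMeasure 1 (Set.Iic x) = ENNReal.ofReal (1 - Real.exp (-x)) := by
  have h := cdf_expMeasure_eq (one_pos) x
  rw [if_pos hx, one_mul] at h
  rw [← h, ofReal_cdf]

theorem noise_neg : noise {p | p.2 < 0} = 0 := by
  have e : {p : ℝ × ℝ | p.2 < 0} = Set.univ ×ˢ Set.Iio 0 := by ext p; simp
  rw [e, noise, Measure.prod_prod]
  have h1 : expMeasure 1 (Set.Iio 0) = 0 := by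
    refine measure_mono_null Set.Iio_subset_Iic_self ?_
    rw [exp_Iic 0 le_rfl]
    simp
  rw [h1, mul_zero]

theorem noise_lt : noise {p | p.2 < 1} < 1 := by
  have e : {p : ℝ × ℝ | p.2 < 1} = Set.univ ×ˢ Set.Iio 1 := by ext p; simp
  rw [e, noise, Measure.prod_prod, measure_univ, one_mul]
  refine lt_of_le_of_lt (measure_mono Set.Iio_subset_Iic_self) ?_
  rw [exp_Iic 1 zero_le_one]
  rw [← ENNReal.ofReal_one]
  rw [ENNReal.ofReal_lt_ofReal_iff one_pos]
  have := Real.exp_pos (-1)
  linarith

theorem ae_nonneg : ∀ᵐ ω ∂(Measure.infinitePi fun _ : ℕ => noise), ∀ k, 0 ≤ (ω k).2 := by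
  rw [ae_all_iff]
  intro k
  rw [ae_iff]
  have h := (measurePreserving_eval_infinitePi (fun _ : ℕ => noise) k).measure_preimage
    (s := {p : ℝ × ℝ | p.2 < 0})
    (measurableSet_lt measurable_snd measurable_const).nullMeasurableSet
  rw [noise_neg] at h
  refine measure_mono_null ?_ h
  intro ω hω
  simpa using hω

theorem ae_frequently : ∀ᵐ ω ∂(Measure.infinitePi fun _ : ℕ => noise),
    ∀ N : ℕ, ∃ k ≥ N, 1 ≤ (ω k).2 := by
  rw [ae_all_iff]
  intro N
  rw [ae_iff]
  have hle : ∀ m : ℕ, (Measure.infinitePi fun _ : ℕ => noise)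
      {ω | ¬ ∃ k ≥ N, 1 ≤ (ω k).2} ≤ (noise {p | p.2 < 1}) ^ m := by
    intro m
    have h1 := Measure.infinitePi_pi (fun _ : ℕ => noise) (s := Finset.Ico N (N + m))
      (t := fun _ => {p : ℝ × ℝ | p.2 < 1})
      (fun _ _ => measurableSet_lt measurable_snd measurable_const)
    rw [Finset.prod_const, Nat.card_Ico, Nat.add_sub_cancel_left] at h1
    rw [← h1]
    apply measure_mono
    intro ω hω
    simp only [Set.mem_ofPred_eq, not_exists, not_and, not_le, ge_iff_le] at hω
    intro i hi
    simp only [Finset.coe_Ico, Set.mem_Ico] at hi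
    exact hω i hi.1
  have hlim : Tendsto (fun m : ℕ => (noise {p | p.2 < 1}) ^ m) atTop (nhds 0) :=
    ENNReal.tendsto_pow_atTop_nhds_zero_of_lt_one noise_lt
  refine le_antisymm ?_ bot_le
  exact ge_of_tendsto' hlim hle

/-- divergence of the sum of the waiting times -/
theorem tendsto_times (a q : ℕ → ℝ) (Q : ℝ) (ha : ∀ k, 0 ≤ a k)
    (hf : ∀ N : ℕ, ∃ k ≥ N, 1 ≤ a k) (hq : ∀ k, 0 < q k) (hQ : ∀ k, q k ≤ Q) :
    Tendsto (fun k => ∑ j ∈ Finset.range k, a j / q j) atTop atTop := by
  have hnn : ∀ j, 0 ≤ a j / q j := fun j => div_nonneg (ha j) (hq j).le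
  rw [← not_summable_iff_tendsto_nat_atTop_of_nonneg hnn]
  intro hs
  have h1 := hs.tendsto_atTop_zero
  have hQ0 : 0 < Q := lt_of_lt_of_le (hq 0) (hQ 0)
  have h2 := h1.eventually (gt_mem_nhds (show (0 : ℝ) < 1 / Q by positivity))
  rw [eventually_atTop] at h2
  obtain ⟨N, hN⟩ := h2
  obtain ⟨k, hk, hk1⟩ := hf N
  have h3 := hN k hk
  have h4 : 1 / Q ≤ a k / q k := div_le_div₀ (ha k) hk1 (hq k) (hQ k)
  linarith

/-- choose an entry of a weighted list: the entry whose cumulated weight first exceeds `v` -/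
noncomputable def pick {S : Type*} (a : S) : List (ℝ × S) → ℝ → S
  | [], _ => a
  | p :: l, v => if v < p.1 then p.2 else pick a l (v - p.1)

open Classical in
theorem pick_measurable {S : Type*} [MeasurableSpace S] [DiscreteMeasurableSpace S] (a : S)
    (l : List (ℝ × S)) : Measurable (pick a l) := by
  induction l with
  | nil => exact measurable_const
  | cons p l ih =>
    exact Measurable.ite (measurableSet_lt measurable_id measurable_const) measurable_const
      (ih.comp (measurable_id.sub_const _))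

theorem lintegral_pick {S : Type*} [MeasurableSpace S] [DiscreteMeasurableSpace S] (a : S)
    (l : List (ℝ × S)) (hl : ∀ p ∈ l, 0 ≤ p.1) (f : S → ℝ≥0∞) :
    ∫⁻ v in Set.Ico 0 (l.map Prod.fst).sum, f (pick a l v) =
      (l.map fun p => ENNReal.ofReal p.1 * f p.2).sum := by
  induction l with
  | nil => simp
  | cons p l ih =>
    have hp : 0 ≤ p.1 := hl p (List.mem_cons_self ..)
    have hl' : ∀ q ∈ l, 0 ≤ q.1 := fun q hq => hl q (List.mem_cons_of_mem _ hq)
    have hW : 0 ≤ (l.map Prod.fst).sum := List.sum_nonneg (by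
      intro x hx
      rw [List.mem_map] at hx
      obtain ⟨q, hq, rfl⟩ := hx
      exact hl' q hq)
    simp only [List.map_cons, List.sum_cons]
    set W := (l.map Prod.fst).sum with hWd
    have hsplit : Set.Ico (0 : ℝ) (p.1 + W) = Set.Ico 0 p.1 ∪ Set.Ico p.1 (p.1 + W) :=
      (Set.Ico_union_Ico_eq_Ico hp (by linarith)).symm
    rw [hsplit, lintegral_union measurableSet_Ico (Set.Ico_disjoint_Ico_same)]
    congr 1
    · have h1 : ∫⁻ v in Set.Ico 0 p.1, f (pick a (p :: l) v) = ∫⁻ _ in Set.Ico 0 p.1, f p.2 := by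
        apply setLIntegral_congr_fun measurableSet_Ico
        intro v hv
        simp only [pick, if_pos hv.2]
      rw [h1, setLIntegral_const, Real.volume_Ico, sub_zero, mul_comm]
    · rw [← ih hl']
      have h1 : ∫⁻ v in Set.Ico p.1 (p.1 + W), f (pick a (p :: l) v) =
          ∫⁻ v in Set.Ico p.1 (p.1 + W), f (pick a l (v - p.1)) := by
        apply setLIntegral_congr_fun measurableSet_Ico
        intro v hv
        simp only [pick, if_neg (not_lt.mpr hv.1)]
      rw [h1, ← lintegral_indicator measurableSet_Ico, ← lintegral_indicator measurableSet_Ico]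
      rw [← lintegral_sub_right_eq_self
        ((Set.Ico 0 W).indicator fun v => f (pick a l v)) p.1]
      refine lintegral_congr fun v => ?_
      by_cases hv : v ∈ Set.Ico p.1 (p.1 + W)
      · have hv' : v - p.1 ∈ Set.Ico 0 W := ⟨by linarith [hv.1], by linarith [hv.2]⟩
        rw [Set.indicator_of_mem hv, Set.indicator_of_mem hv']
      · have hv' : v - p.1 ∉ Set.Ico 0 W := by
          intro h; exact hv ⟨by linarith [h.1], by linarith [h.2]⟩
        rw [Set.indicator_of_notMem hv, Set.indicator_of_notMem hv']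

/-- normalised weights -/
noncomputable def jump {S : Type*} (l : List (ℝ × S)) (a : S) (u : ℝ) : S :=
  pick a (l.map fun p => (p.1 / (l.map Prod.fst).sum, p.2)) u

theorem lintegral_jump_le {S : Type*} [MeasurableSpace S] [DiscreteMeasurableSpace S] (a : S)
    (l : List (ℝ × S)) (hl : ∀ p ∈ l, 0 ≤ p.1) (hW : 0 < (l.map Prod.fst).sum) (f : S → ℝ)
    (hf : ∀ s, 0 ≤ f s) (h : (l.map fun p => p.1 * (f p.2 - f a)).sum ≤ 0) :
    ∫⁻ p, ENNReal.ofReal (f (jump l a p.1)) ∂noise ≤ ENNReal.ofReal (f a) := by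
  set W := (l.map Prod.fst).sum with hWd
  have hm : Measurable fun u : ℝ => ENNReal.ofReal (f (jump l a u)) :=
    (Measurable.of_discrete (f := fun s => ENNReal.ofReal (f s))).comp (pick_measurable a _)
  have e1 : ∫⁻ p, ENNReal.ofReal (f (jump l a p.1)) ∂noise =
      ∫⁻ u in Set.Ico (0 : ℝ) 1, ENNReal.ofReal (f (jump l a u)) := by
    rw [noise, lintegral_prod (fun p : ℝ × ℝ => ENNReal.ofReal (f (jump l a p.1)))
      (hm.comp measurable_fst).aemeasurable]
    simp
  have hsum : ((l.map fun p => (p.1 / W, p.2)).map Prod.fst).sum = 1 := by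
    rw [List.map_map]
    have : (Prod.fst ∘ fun p : ℝ × S => (p.1 / W, p.2)) = fun p => p.1 * W⁻¹ := by
      ext p; simp [div_eq_mul_inv]
    rw [this, List.sum_map_mul_right, ← hWd]
    exact mul_inv_cancel₀ hW.ne'
  have h2 := lintegral_pick a (l.map fun p => (p.1 / W, p.2)) (by
    intro p hp
    rw [List.mem_map] at hp
    obtain ⟨q, hq, rfl⟩ := hp
    exact div_nonneg (hl q hq) hW.le) (fun s => ENNReal.ofReal (f s))
  rw [hsum] at h2
  rw [e1]
  have e2 : ∫⁻ u in Set.Ico (0 : ℝ) 1, ENNReal.ofReal (f (jump l a u)) =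
      ∫⁻ v in Set.Ico (0 : ℝ) 1, ENNReal.ofReal (f (pick a (l.map fun p => (p.1 / W, p.2)) v)) := rfl
  rw [e2, h2, List.map_map]
  have h3 : ((l.map ((fun p : ℝ × S => ENNReal.ofReal p.1 * ENNReal.ofReal (f p.2)) ∘
      fun p => (p.1 / W, p.2)))).sum = ENNReal.ofReal ((l.map fun p => p.1 / W * f p.2).sum) := by
    clear h2 e2 e1 h hsum
    have key : ∀ l' : List (ℝ × S), (∀ p ∈ l', 0 ≤ p.1) →
        0 ≤ (l'.map fun p => p.1 / W * f p.2).sum ∧
        ((l'.map ((fun p : ℝ × S => ENNReal.ofReal p.1 * ENNReal.ofReal (f p.2)) ∘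
          fun p => (p.1 / W, p.2)))).sum =
          ENNReal.ofReal ((l'.map fun p => p.1 / W * f p.2).sum) := by
      intro l'
      induction l' with
      | nil => intro _; simp
      | cons p l' ih =>
        intro hl'
        obtain ⟨i1, i2⟩ := ih (fun q hq => hl' q (List.mem_cons_of_mem _ hq))
        have hp : 0 ≤ p.1 := hl' p (List.mem_cons_self ..)
        have hp2 : 0 ≤ p.1 / W * f p.2 := mul_nonneg (div_nonneg hp hW.le) (hf _)
        simp only [List.map_cons, List.sum_cons]
        refine ⟨add_nonneg hp2 i1, ?_⟩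
        rw [i2, ENNReal.ofReal_add hp2 i1, ENNReal.ofReal_mul (div_nonneg hp hW.le)]
        rfl
    exact (key l hl).2
  rw [h3]
  apply ENNReal.ofReal_le_ofReal
  have h4 : (l.map fun p => p.1 * (f p.2 - f a)).sum =
      W * (l.map fun p => p.1 / W * f p.2).sum - W * f a := by
    rw [hWd, ← List.sum_map_mul_left, ← List.sum_map_mul_right, ← hWd]
    have key : ∀ l' : List (ℝ × S), (l'.map fun p => p.1 * (f p.2 - f a)).sum =
        (l'.map fun p => W * (p.1 / W * f p.2)).sum - (l'.map fun p => p.1 * f a).sum := by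
      intro l'
      induction l' with
      | nil => simp
      | cons p l' ih =>
        simp only [List.map_cons, List.sum_cons, ih]
        have : W * (p.1 / W * f p.2) = p.1 * f p.2 := by field_simp
        rw [this]
        ring
    exact key l
  rw [h4] at h
  have h5 : W * (l.map fun p => p.1 / W * f p.2).sum ≤ W * f a := by linarith
  exact le_of_mul_le_mul_left h5 hW

end Pool.Agent.Q209.RN
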